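import Pool.Agent.helper32.EX.SpecA

/-!
# Row JAC of project ex: the Jacobi identity
-/

set_option autoImplicit false
set_option linter.unusedVariables false
set_option linter.unusedSectionVars false

namespace Pool.Agent.EX

noncomputable section

section

variable {n : ℕ} {C : Matrix (Fin n) (Fin n) ℤ} [hC : Fact (Dyn C)] {R : Type} [CommRing R]

/-- the Jacobi sum -/
def JAC_J (u v w : LV C R) : LV C R := br u (br v w) + br v (br w u) + br w (br u v)

theorem JAC_rot (u v w : LV C R) : JAC_J u v w = JAC_J v w u := by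
  unfold JAC_J
  abel

theorem JAC_add (u u' v w : LV C R) : JAC_J (u + u') v w = JAC_J u v w + JAC_J u' v w := by
  unfold JAC_J
  simp only [br_add_left, br_add_right]
  abel

theorem JAC_smul (a : R) (u v w : LV C R) : JAC_J (a • u) v w = a • JAC_J u v w := by
  unfold JAC_J
  simp only [br_smul_left, br_smul_right, smul_add]

theorem JAC_zero (v w : LV C R) : JAC_J 0 v w = 0 := by
  unfold JAC_J
  simp

variable (R) in
/-- the term -/
def JAC_T (α β γ : Rt C) : LV C R := br (ev C α 1) (br (ev C β 1) (ev C γ 1))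

theorem JAC_T0 {α β γ : Rt C} (h : 0 ≤ Q C β.1 γ.1) : JAC_T R α β γ = 0 := by
  unfold JAC_T
  rw [br_ev_zero h, br_zero_right]

theorem JAC_root {β γ : Rt C} (h : Q C β.1 γ.1 = -1) : ∃ δ : Rt C, δ.1 = β.1 + γ.1 :=
  ⟨⟨β.1 + γ.1, by rw [Q_add_self, h]; norm_num⟩, rfl⟩

theorem JAC_T1 {α β γ : Rt C} (h : Q C β.1 γ.1 = -1) (h1 : 0 ≤ Q C α.1 β.1 + Q C α.1 γ.1) : JAC_T R α β γ = 0 := by
  obtain ⟨δ, hδ⟩ := JAC_root h
  unfold JAC_T
  rw [br_ev_add hδ, br_ev_zero]
  rw [hδ, Q_add_right]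
  exact h1

/-- the identity with all scalars one -/
theorem JAC_A (α γ : Rt C) : JAC_T R α (-α) γ + JAC_T R (-α) γ α + JAC_T R γ α (-α) = 0 := by
  have h3 : JAC_T R γ α (-α) = ev C γ ((Q C α.1 γ.1 : ℤ) : R) := by
    unfold JAC_T
    rw [br_ev_neg, br_ev_h, bl_neg_left, bl_smul_left, bl_rt]
    congr 1
    ring
  rw [h3]
  have hb := bd α γ
  have hcases : Q C α.1 γ.1 = -2 ∨ Q C α.1 γ.1 = -1 ∨ Q C α.1 γ.1 = 0 ∨ Q C α.1 γ.1 = 1 ∨ Q C α.1 γ.1 = 2 := by
    omega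
  rcases hcases with h | h | h | h | h
  · -- `γ = -α`
    have hγ := Q_eq_neg_two h
    subst hγ
    have e1 : JAC_T R α (-α) (-α) = 0 := JAC_T0 (by rw [(-α).2]; norm_num)
    have e2 : JAC_T R (-α) (-α) α = ev C (-α) 2 := by
      unfold JAC_T
      have := br_ev_neg (R := R) (-α) 1 1
      rw [rt_neg_neg] at this
      rw [this, br_ev_h, bl_neg_left, bl_smul_left, bl_rt, (-α).2]
      congr 1
      push_cast
      ring
    rw [e1, e2, h, zero_add, ← ev_add]
    have : (2 : R) + ((-2 : ℤ) : R) = 0 := by push_cast; ring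
    rw [this, ev_zero]
  · -- `Q = -1`
    have e1 : JAC_T R α (-α) γ = 0 := JAC_T0 (by rw [neg_val, Q_neg_left, h]; norm_num)
    have hγα : Q C γ.1 α.1 = -1 := by rw [Q_comm, h]
    obtain ⟨δ, hδ⟩ := JAC_root hγα
    have e2 : JAC_T R (-α) γ α = ev C γ 1 := by
      unfold JAC_T
      have h5 : γ.1 = (-α).1 + δ.1 := by rw [hδ, neg_val]; abel
      rw [br_ev_add hδ, br_ev_add h5]
      have h6 : eps C (-α).1 δ.1 = eps C γ.1 α.1 := by
        rw [neg_val, eps_neg_left, hδ, eps_add_right, eps_self, eps_symm_odd (v := γ.1) (w := α.1) (Or.inr hγα)]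
        ring
      rw [h6]
      congr 1
      have h7 : ((eps C γ.1 α.1 * eps C γ.1 α.1 : ℤ) : R) = 1 := by rw [eps_sq]; norm_num
      push_cast at h7
      simp only [mul_one]
      exact h7
    rw [e1, e2, h, zero_add, ← ev_add]
    have : (1 : R) + ((-1 : ℤ) : R) = 0 := by push_cast; ring
    rw [this, ev_zero]
  · have e1 : JAC_T R α (-α) γ = 0 := JAC_T0 (by rw [neg_val, Q_neg_left, h]; norm_num)
    have e2 : JAC_T R (-α) γ α = 0 := JAC_T0 (by rw [Q_comm, h])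
    rw [e1, e2, h]
    simp
  · have e2 : JAC_T R (-α) γ α = 0 := JAC_T0 (by rw [Q_comm, h]; norm_num)
    have hαγ : Q C (-α).1 γ.1 = -1 := by rw [neg_val, Q_neg_left, h]
    obtain ⟨δ, hδ⟩ := JAC_root hαγ
    have e1 : JAC_T R α (-α) γ = ev C γ (-1) := by
      unfold JAC_T
      have h5 : γ.1 = α.1 + δ.1 := by rw [hδ, neg_val]; abel
      rw [br_ev_add hδ, br_ev_add h5]
      have h6 : eps C α.1 δ.1 = -eps C (-α).1 γ.1 := by
        rw [hδ, neg_val, eps_add_right, eps_neg_right, eps_neg_left, eps_self]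
        ring
      rw [h6]
      congr 1
      have h7 : ((eps C (-α).1 γ.1 * eps C (-α).1 γ.1 : ℤ) : R) = 1 := by rw [eps_sq]; norm_num
      push_cast at h7 ⊢
      simp only [mul_one, neg_mul]
      rw [h7]
    rw [e1, e2, h, add_zero, ← ev_add]
    have : (-1 : R) + ((1 : ℤ) : R) = 0 := by push_cast; ring
    rw [this, ev_zero]
  · have hγ := Q_eq_two h
    subst hγ
    have e2 : JAC_T R (-γ) γ γ = 0 := JAC_T0 (by rw [γ.2]; norm_num)
    have e1 : JAC_T R γ (-γ) γ = ev C γ (-2) := by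
      unfold JAC_T
      have := br_ev_neg (R := R) (-γ) 1 1
      rw [rt_neg_neg] at this
      rw [this, br_ev_h, bl_neg_left, bl_smul_left, rt_neg, bl_neg_left, bl_rt, γ.2]
      congr 1
      push_cast
      ring
    rw [e1, e2, h, add_zero, ← ev_add]
    have : (-2 : R) + ((2 : ℤ) : R) = 0 := by push_cast; ring
    rw [this, ev_zero]

theorem JAC_B3 {α β γ : Rt C} (ha : Q C α.1 β.1 = -1) (hb : Q C β.1 γ.1 = -1) (hc : Q C γ.1 α.1 = -1) :
    JAC_T R α β γ + JAC_T R β γ α + JAC_T R γ α β = 0 := by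
  have hsum : α.1 + β.1 + γ.1 = 0 := by
    by_contra hne
    have h1 := hC.out.pos _ hne
    have h2 : Q C (α.1 + β.1 + γ.1) (α.1 + β.1 + γ.1) = 0 := by
      simp only [Q_add_left, Q_add_right]
      rw [α.2, β.2, γ.2, Q_comm β.1 α.1, Q_comm γ.1 β.1, Q_comm α.1 γ.1, ha, hb, hc]
      norm_num
    omega
  have h1 : ∀ {x y z : Rt C}, Q C y.1 z.1 = -1 → x.1 + y.1 + z.1 = 0 →
      JAC_T R x y z = ((-((eps C y.1 z.1 : R)) • rt R x, 0) : LV C R) := by
    intro x y z hyz hs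
    have hx : (-x).1 = y.1 + z.1 := by
      rw [neg_val]
      have : y.1 + z.1 = -x.1 := by
        rw [add_assoc] at hs
        exact (neg_eq_of_add_eq_zero_right hs).symm
      exact this.symm
    unfold JAC_T
    rw [br_ev_add hx, br_ev_neg]
    simp
  have hs2 : β.1 + γ.1 + α.1 = 0 := by rw [← hsum]; abel
  have hs3 : γ.1 + α.1 + β.1 = 0 := by rw [← hsum]; abel
  rw [h1 hb hsum, h1 hc hs2, h1 ha hs3]
  have hγ : γ.1 = -(α.1 + β.1) := (neg_eq_of_add_eq_zero_right hsum).symm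
  have hβα : eps C β.1 α.1 = -eps C α.1 β.1 := eps_symm_odd (Or.inr ha)
  have e1 : eps C β.1 γ.1 = eps C α.1 β.1 := by
    rw [hγ, eps_neg_right, eps_add_right, eps_self, hβα]
    ring
  have e2 : eps C γ.1 α.1 = eps C α.1 β.1 := by
    rw [hγ, eps_neg_left, eps_add_left, eps_self, hβα]
    ring
  rw [e1, e2]
  have h4 : rt R α + rt R β + rt R γ = 0 := by
    funext i
    have := congrFun hsum i
    simp only [Pi.add_apply, Pi.zero_apply] at this
    simp only [rt, Pi.add_apply, Pi.zero_apply]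
    rw [← Int.cast_add, ← Int.cast_add, this, Int.cast_zero]
  have h5 : -(eps C α.1 β.1 : R) • rt R α + -(eps C α.1 β.1 : R) • rt R β + -(eps C α.1 β.1 : R) • rt R γ = 0 := by
    rw [← smul_add, ← smul_add, h4, smul_zero]
  ext i
  · simpa using congrFun h5 i
  · simp

theorem JAC_B2 {α β γ : Rt C} (ha : Q C α.1 β.1 = -1) (hb : Q C β.1 γ.1 = -1) (hc : 0 ≤ Q C γ.1 α.1) :
    JAC_T R α β γ + JAC_T R β γ α + JAC_T R γ α β = 0 := by
  have e2 : JAC_T R β γ α = 0 := JAC_T0 hc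
  rw [e2, add_zero]
  rcases lt_or_eq_of_le hc with h | h
  · have e1 : JAC_T R α β γ = 0 := JAC_T1 hb (by rw [ha, Q_comm α.1 γ.1]; omega)
    have e3 : JAC_T R γ α β = 0 := JAC_T1 ha (by rw [Q_comm γ.1 β.1, hb]; omega)
    rw [e1, e3, add_zero]
  · obtain ⟨δ, hδ⟩ := JAC_root hb
    obtain ⟨δ', hδ'⟩ := JAC_root ha
    have hαδ : Q C α.1 δ.1 = -1 := by rw [hδ, Q_add_right, ha, Q_comm α.1 γ.1, ← h]; norm_num
    obtain ⟨μ, hμ⟩ := JAC_root hαδ
    have hμ' : μ.1 = γ.1 + δ'.1 := by rw [hμ, hδ, hδ']; abel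
    have e1 : JAC_T R α β γ = ev C μ ((eps C β.1 γ.1 * (eps C α.1 β.1 * eps C α.1 γ.1) : ℤ) : R) := by
      unfold JAC_T
      rw [br_ev_add hδ, br_ev_add hμ, hδ, eps_add_right]
      congr 1
      push_cast
      ring
    have e3 : JAC_T R γ α β = ev C μ ((eps C α.1 β.1 * (eps C γ.1 α.1 * eps C γ.1 β.1) : ℤ) : R) := by
      unfold JAC_T
      rw [br_ev_add hδ', br_ev_add hμ', hδ', eps_add_right]
      congr 1
      push_cast
      ring
    have h6 : eps C γ.1 β.1 = -eps C β.1 γ.1 := eps_symm_odd (Or.inr hb)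
    have h7 : eps C γ.1 α.1 = eps C α.1 γ.1 := eps_symm_even (Or.inl h.symm)
    rw [e1, e3, ← ev_add, ← Int.cast_add, h6, h7]
    have : eps C β.1 γ.1 * (eps C α.1 β.1 * eps C α.1 γ.1) +
        eps C α.1 β.1 * (eps C α.1 γ.1 * -eps C β.1 γ.1) = 0 := by ring
    rw [this, Int.cast_zero, ev_zero]

theorem JAC_B1 {α β γ : Rt C} (ha : Q C α.1 β.1 = -1) (hb : 0 ≤ Q C β.1 γ.1) (hc : 0 ≤ Q C γ.1 α.1) :
    JAC_T R α β γ + JAC_T R β γ α + JAC_T R γ α β = 0 := by
  have e1 : JAC_T R α β γ = 0 := JAC_T0 hb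
  have e2 : JAC_T R β γ α = 0 := JAC_T0 hc
  have e3 : JAC_T R γ α β = 0 := JAC_T1 ha (by rw [Q_comm γ.1 β.1]; omega)
  rw [e1, e2, e3]
  simp

theorem JAC_roots (α β γ : Rt C) : JAC_T R α β γ + JAC_T R β γ α + JAC_T R γ α β = 0 := by
  have rot : ∀ x y z : Rt C, JAC_T R y z x + JAC_T R z x y + JAC_T R x y z = 0 →
      JAC_T R x y z + JAC_T R y z x + JAC_T R z x y = 0 := by
    intro x y z h
    rw [← h]
    abel
  have ba := bd α β
  have bb := bd β γ
  have bc := bd γ α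
  by_cases ha2 : Q C α.1 β.1 = -2
  · have := Q_eq_neg_two ha2
    subst this
    exact JAC_A α γ
  by_cases hb2 : Q C β.1 γ.1 = -2
  · have := Q_eq_neg_two hb2
    subst this
    exact rot _ _ _ (JAC_A β α)
  by_cases hc2 : Q C γ.1 α.1 = -2
  · have := Q_eq_neg_two hc2
    subst this
    exact rot _ _ _ (rot _ _ _ (JAC_A γ β))
  by_cases ha : Q C α.1 β.1 = -1
  · by_cases hb : Q C β.1 γ.1 = -1
    · by_cases hc : Q C γ.1 α.1 = -1
      · exact JAC_B3 ha hb hc
      · exact JAC_B2 ha hb (by omega)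
    · by_cases hc : Q C γ.1 α.1 = -1
      · exact rot _ _ _ (rot _ _ _ (JAC_B2 hc ha (by omega)))
      · exact JAC_B1 ha (by omega) (by omega)
  · by_cases hb : Q C β.1 γ.1 = -1
    · by_cases hc : Q C γ.1 α.1 = -1
      · exact rot _ _ _ (JAC_B2 hb hc (by omega))
      · exact rot _ _ _ (JAC_B1 hb (by omega) (by omega))
    · by_cases hc : Q C γ.1 α.1 = -1
      · exact rot _ _ _ (rot _ _ _ (JAC_B1 hc (by omega) (by omega)))
      · have e1 : JAC_T R α β γ = 0 := JAC_T0 (by omega)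
        have e2 : JAC_T R β γ α = 0 := JAC_T0 (by omega)
        have e3 : JAC_T R γ α β = 0 := JAC_T0 (by omega)
        rw [e1, e2, e3]
        simp

theorem JAC_eee (α β γ : Rt C) (s t r : R) : JAC_J (ev C α s) (ev C β t) (ev C γ r) = 0 := by
  rw [ev_eq α s, JAC_smul, JAC_rot, ev_eq β t, JAC_smul, JAC_rot, ev_eq γ r, JAC_smul, JAC_rot]
  have : JAC_J (ev C α 1) (ev C β 1) (ev C γ (1 : R)) = 0 := JAC_roots α β γ
  rw [this]
  simp

theorem JAC_wt (h : Fin n → R) (β γ : Rt C) (t r : R) :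
    br ((h, 0) : LV C R) (br (ev C β t) (ev C γ r)) =
      (bl C h (rt R β) + bl C h (rt R γ)) • br (ev C β t) (ev C γ r) := by
  have hb := bd β γ
  have hcases : Q C β.1 γ.1 = -2 ∨ Q C β.1 γ.1 = -1 ∨ 0 ≤ Q C β.1 γ.1 := by omega
  rcases hcases with h1 | h1 | h1
  · have := Q_eq_neg_two h1
    subst this
    rw [br_ev_neg, br_h_h, rt_neg, bl_neg_right, add_neg_cancel, zero_smul]
  · obtain ⟨δ, hδ⟩ := JAC_root h1
    rw [br_ev_add hδ, br_h_ev, smul_ev]
    congr 2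
    have : rt R δ = rt R β + rt R γ := by
      funext i
      simp only [rt, Pi.add_apply]
      rw [hδ, Pi.add_apply, Int.cast_add]
    rw [this, bl_add_right]
  · rw [br_ev_zero h1, br_zero_right, smul_zero]

theorem JAC_hee (hANT : ANT_stmt) (h : Fin n → R) (β γ : Rt C) (t r : R) :
    JAC_J ((h, 0) : LV C R) (ev C β t) (ev C γ r) = 0 := by
  unfold JAC_J
  rw [JAC_wt, br_ev_h, br_h_ev]
  have e1 : ev C γ (-(bl C h (rt R γ) * r)) = (-(bl C h (rt R γ))) • ev C γ r := by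
    rw [smul_ev]
    congr 1
    ring
  have e2 : ev C β (bl C h (rt R β) * t) = (bl C h (rt R β)) • ev C β t := by rw [smul_ev]
  rw [e1, e2, br_smul_right, br_smul_right, (hANT C R (ev C γ r) (ev C β t)).1]
  module

theorem JAC_hhe (h k : Fin n → R) (γ : Rt C) (r : R) :
    JAC_J ((h, 0) : LV C R) ((k, 0) : LV C R) (ev C γ r) = 0 := by
  unfold JAC_J
  rw [br_h_ev, br_h_ev, br_ev_h, br_h_ev, br_h_h, br_zero_right, add_zero, ← ev_add]
  have : bl C h (rt R γ) * (bl C k (rt R γ) * r) + bl C k (rt R γ) * -(bl C h (rt R γ) * r) = 0 := by ring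
  rw [this, ev_zero]

theorem JAC_hhh (h k l : Fin n → R) :
    JAC_J ((h, 0) : LV C R) ((k, 0) : LV C R) ((l, 0) : LV C R) = 0 := by
  unfold JAC_J
  simp only [br_h_h, br_zero_right, add_zero]

/-- basis-like vectors -/
def JAC_b (u : LV C R) : Prop := (∃ h : Fin n → R, u = (h, 0)) ∨ ∃ (α : Rt C) (t : R), u = ev C α t

theorem JAC_basis (hANT : ANT_stmt) {u v w : LV C R} (hu : JAC_b u) (hv : JAC_b v) (hw : JAC_b w) :
    JAC_J u v w = 0 := by
  rcases hu with ⟨h, rfl⟩ | ⟨α, s, rfl⟩ <;> rcases hv with ⟨k, rfl⟩ | ⟨β, t, rfl⟩ <;>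
    rcases hw with ⟨l, rfl⟩ | ⟨γ, r, rfl⟩
  · exact JAC_hhh h k l
  · exact JAC_hhe h k γ r
  · rw [JAC_rot, JAC_rot]
    exact JAC_hhe l h β t
  · exact JAC_hee hANT h β γ t r
  · rw [JAC_rot]
    exact JAC_hhe k l α s
  · rw [JAC_rot]
    exact JAC_hee hANT k γ α r s
  · rw [JAC_rot, JAC_rot]
    exact JAC_hee hANT l α β s t
  · exact JAC_eee α β γ s t r

end

theorem JAC (hANT : ANT_stmt) : JAC_stmt := by
  intro n C hC R _ u v w
  change JAC_J u v w = 0
  have hb1 : ∀ (i : Fin n) (t : R), JAC_b ((Pi.single i t, 0) : LV C R) := fun i t => Or.inl ⟨_, rfl⟩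
  have hb2 : ∀ (α : Rt C) (t : R), JAC_b (ev C α t) := fun α t => Or.inr ⟨α, t, rfl⟩
  have step1 : ∀ (v w : LV C R), JAC_b v → JAC_b w → ∀ u : LV C R, JAC_J u v w = 0 := by
    intro v w hv hw u
    refine LV_ind (P := fun u => JAC_J u v w = 0) (JAC_zero v w) ?_ ?_ ?_ u
    · intro a b ha hb
      rw [JAC_add, ha, hb, add_zero]
    · intro i t
      exact JAC_basis hANT (hb1 i t) hv hw
    · intro α t
      exact JAC_basis hANT (hb2 α t) hv hw
  have step2 : ∀ (w : LV C R), JAC_b w → ∀ v u : LV C R, JAC_J u v w = 0 := by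
    intro w hw v u
    rw [JAC_rot]
    refine LV_ind (P := fun v => JAC_J v w u = 0) (JAC_zero w u) ?_ ?_ ?_ v
    · intro a b ha hb
      rw [JAC_add, ha, hb, add_zero]
    · intro i t
      rw [JAC_rot, JAC_rot]
      exact step1 _ _ (hb1 i t) hw u
    · intro α t
      rw [JAC_rot, JAC_rot]
      exact step1 _ _ (hb2 α t) hw u
  rw [JAC_rot, JAC_rot]
  refine LV_ind (P := fun w => JAC_J w u v = 0) (JAC_zero u v) ?_ ?_ ?_ w
  · intro a b ha hb
    rw [JAC_add, ha, hb, add_zero]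
  · intro i t
    rw [JAC_rot]
    exact step2 _ (hb1 i t) v u
  · intro α t
    rw [JAC_rot]
    exact step2 _ (hb2 α t) v u

end

end Pool.Agent.EX
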