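import Pool.Agent.helper32.EX.SpecD

/-!
# Row RTD of project ex
-/

set_option autoImplicit false
set_option linter.unusedVariables false
set_option linter.unusedSectionVars false

namespace Pool.Agent.EX

noncomputable section

theorem RTD_ne {n : ℕ} {C : Matrix (Fin n) (Fin n) ℤ} [hC : Fact (Dyn C)] (F : Type) [Field F]
    (v : Fin n → ℤ) (hv : Q C v v = 6) : ∃ i, ((v i : ℤ) : F) ≠ 0 := by
  by_contra hne
  push Not at hne
  have hv0 : v ≠ 0 := by
    intro h
    rw [h] at hv
    simp [Q] at hv
  rcases Nat.eq_zero_or_pos (ringChar F) with h0 | h0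
  · have h9 : CharP F 0 := ringChar.eq_iff.mp h0
    have : CharZero F := CharP.charP_to_charZero F
    exact hv0 (funext fun i => Int.cast_injective ((hne i).trans Int.cast_zero.symm))
  · have h2 : ∀ i, ∃ b : ℤ, v i = (ringChar F : ℤ) * b :=
      fun i => (CharP.intCast_eq_zero_iff F (ringChar F) _).mp (hne i)
    choose b hb using h2
    have h3 : v = (ringChar F : ℤ) • b := funext fun i => by simp [hb]
    rw [h3, Q_smul_left, Q_smul_right] at hv
    have h5 : b ≠ 0 := by
      intro h5
      rw [h5] at h3
      exact hv0 (by rw [h3]; simp)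
    have h6 := hC.out.pos _ h5
    have h8 := ee_self (C := C) b
    have h7 : (1 : ℤ) < ringChar F := by
      have h8 : ringChar F ≠ 1 := CharP.ringChar_ne_one
      omega
    have h10 : 2 ≤ Q C b b := by omega
    nlinarith [mul_pos (show (0:ℤ) < ringChar F by omega) h6]

theorem RTD : RTD_stmt := by
  intro n C hC F _ α β h
  constructor
  · have h1 : Q C (α.1 + β.1) (α.1 + β.1) = 2 := by rw [Q_add_self, h]; norm_num
    have h2 : rt F (⟨α.1 + β.1, h1⟩ : Rt C) = rt F α + rt F β := by
      funext i
      simp only [rt, Pi.add_apply, Int.cast_add]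
    rw [← h2]
    exact rt_ne_zero F _
  · intro h0
    have h1 : Q C (α.1 - β.1) (α.1 - β.1) = 6 := by rw [Q_sub_self, h]; norm_num
    obtain ⟨i, hi⟩ := RTD_ne F (α.1 - β.1) h1
    apply hi
    have h2 := congrFun h0 i
    simp only [rt, Pi.sub_apply, Pi.zero_apply] at h2
    rw [Pi.sub_apply, Int.cast_sub]
    exact h2

end

end Pool.Agent.EX
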